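import Mathlib
import Pool.Agent.Helper84.NonHelping
import Pool.Agent.Helper84.Sanity

/-!
# One oracle which helps no infinitely-often lower bound of a recursive set

For every relative Blum measure there is a total recursive `g` of two arguments such that for
every recursive set `A` there are arbitrarily complex recursive sets `B` such that for all
functions `t` at once: if `A` has complexity above `g (x, t x)` infinitely often, then `A` has
complexity above `t x` infinitely often relative to the oracle `B`.

The definitions are in `Pool.Agent.Helper84.RelBlumDefs`; `Pool.Agent.Helper84.Sanity` contains
checks of the definitions (existence of relative Blum measures, comparison with Mathlib's notion of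
relative recursiveness).
-/

namespace Pool.Agent.Results.MP_674fd3_lc.UniformNonHelping

open Pool.Agent.Helper84

theorem result (M : RelBlumMeasure) :
    ∃ g : ℕ → ℕ → ℕ, Computable₂ g ∧
      ∀ A : Set ℕ, ComputablePred (fun n => n ∈ A) →
        ∀ t' : ℕ → ℕ, Computable t' →
          ∃ B : Set ℕ, ComputablePred (fun n => n ∈ B) ∧ CompAE M ∅ B t' ∧
            ∀ t : ℕ → ℕ, CompIO M ∅ A (fun x => g x (t x)) → CompIO M B A t :=
  nonhelping M

end Pool.Agent.Results.MP_674fd3_lc.UniformNonHelping
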